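import Mathlib
import Pool.Agent.MP_952ea4_co.Defs

section

/-! A sign-propagation checker for alternating functions of five indices that satisfy the
three-term Grassmann-Pluecker relations. -/

namespace Pool.Agent.MP_952ea4_co

/-- A signed 5-tuple of indices. -/
structure ST where
  s : Int
  a : Nat
  b : Nat
  c : Nat
  d : Nat
  e : Nat

def ST.c1 (t : ST) : ST := if t.b < t.a then ⟨-t.s, t.b, t.a, t.c, t.d, t.e⟩ else t
def ST.c2 (t : ST) : ST := if t.c < t.b then ⟨-t.s, t.a, t.c, t.b, t.d, t.e⟩ else t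
def ST.c3 (t : ST) : ST := if t.d < t.c then ⟨-t.s, t.a, t.b, t.d, t.c, t.e⟩ else t
def ST.c4 (t : ST) : ST := if t.e < t.d then ⟨-t.s, t.a, t.b, t.c, t.e, t.d⟩ else t
def ST.srt (t : ST) : ST := t.c1.c2.c3.c4.c1.c2.c3.c1.c2.c1
def ST.key (t : ST) : Nat := t.a + 16 * (t.b + 16 * (t.c + 16 * (t.d + 16 * t.e)))
def ST.small (t : ST) : Bool := t.a < 16 && t.b < 16 && t.c < 16 && t.d < 16 && t.e < 16

/-- Sign of a real number as an integer. -/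
noncomputable def sg (x : ℝ) : Int := if 0 < x then 1 else if x < 0 then -1 else 0

def ok3 (a b c : Int) : Bool :=
  (a == 0 && b == 0 && c == 0) || ((0 < a || 0 < b || 0 < c) && (a < 0 || b < 0 || c < 0))

inductive Cert
  | gp (x y z a b c d : Nat) : Cert
  | fac (i j k l x y : Nat) : Cert
  | split (k : Nat) (m : List Int) (l r : Cert) : Cert

def upd (st : Nat → List Int) (k : Nat) (m : List Int) : Nat → List Int :=
  fun j => if j = k then m else st j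

def check (F : List (Nat × Nat × Nat × Nat)) : Cert → (Nat → List Int) → Bool
  | .gp x y z a b c d, st =>
    let t1 := (ST.mk 1 x y z a b).srt
    let t2 := (ST.mk 1 x y z c d).srt
    let t3 := (ST.mk 1 x y z a c).srt
    let t4 := (ST.mk 1 x y z b d).srt
    let t5 := (ST.mk 1 x y z a d).srt
    let t6 := (ST.mk 1 x y z b c).srt
    t1.small && t2.small && t3.small && t4.small && t5.small && t6.small &&
    (st t1.key).all fun v1 => (st t2.key).all fun v2 => (st t3.key).all fun v3 =>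
    (st t4.key).all fun v4 => (st t5.key).all fun v5 => (st t6.key).all fun v6 =>
      !ok3 (t1.s * v1 * (t2.s * v2)) (-(t3.s * v3 * (t4.s * v4))) (t5.s * v5 * (t6.s * v6))
  | .fac i j k l x y, st =>
    let t1 := (ST.mk 1 i j k l x).srt
    let t2 := (ST.mk 1 i j k l y).srt
    decide ((i, j, k, l) ∈ F) && decide (x < 12) && decide (y < 12) &&
    decide (x ≠ i ∧ x ≠ j ∧ x ≠ k ∧ x ≠ l) && decide (y ≠ i ∧ y ≠ j ∧ y ≠ k ∧ y ≠ l) &&
    t1.small && t2.small &&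
    (st t1.key).all fun v1 => (st t2.key).all fun v2 => decide (t1.s * v1 * (t2.s * v2) ≠ 1)
  | .split k m l r, st =>
    check F l (upd st k ((st k).filter fun v => decide (v ∈ m))) &&
    check F r (upd st k ((st k).filter fun v => !decide (v ∈ m)))

theorem sg_mul (x y : ℝ) : sg (x * y) = sg x * sg y := by
  unfold sg
  rcases lt_trichotomy x 0 with hx | hx | hx <;> rcases lt_trichotomy y 0 with hy | hy | hy
  · simp [mul_pos_of_neg_of_neg hx hy, hx, hy, hx.not_gt, hy.not_gt]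
  · simp [hy]
  · simp [(mul_neg_of_neg_of_pos hx hy), (mul_neg_of_neg_of_pos hx hy).not_gt, hx, hy, hx.not_gt]
  · simp [hx]
  · simp [hx]
  · simp [hx]
  · simp [(mul_neg_of_pos_of_neg hx hy), (mul_neg_of_pos_of_neg hx hy).not_gt, hx, hy, hy.not_gt]
  · simp [hy]
  · simp [mul_pos hx hy, hx, hy]

theorem sg_neg (x : ℝ) : sg (-x) = - sg x := by
  unfold sg
  rcases lt_trichotomy x 0 with hx | hx | hx
  · simp [hx, hx.not_gt]
  · simp [hx]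
  · simp [hx, hx.not_gt]

theorem sg_mem (x : ℝ) : sg x ∈ [1, 0, (-1 : Int)] := by
  unfold sg; split_ifs <;> simp

theorem sg_pos {x : ℝ} (h : 0 < x) : sg x = 1 := by simp [sg, h]

theorem ok3_of_sum {x y z : ℝ} (h : x + y + z = 0) : ok3 (sg x) (sg y) (sg z) = true := by
  unfold sg ok3
  rcases lt_trichotomy x 0 with hx | hx | hx <;> rcases lt_trichotomy y 0 with hy | hy | hy <;>
    rcases lt_trichotomy z 0 with hz | hz | hz <;>
    first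
    | (exfalso; linarith)
    | simp [hx, hy, hz, not_lt_of_gt hx, not_lt_of_gt hy, not_lt_of_gt hz]
    | simp [hx, hy, hz, not_lt_of_gt hx, not_lt_of_gt hy]
    | simp [hx, hy, hz, not_lt_of_gt hx, not_lt_of_gt hz]
    | simp [hx, hy, hz, not_lt_of_gt hy, not_lt_of_gt hz]
    | simp [hx, hy, hz]

/-- The hypotheses on the bracket function. -/
structure Bracket (D : Nat → Nat → Nat → Nat → Nat → ℝ) (F : List (Nat × Nat × Nat × Nat)) :
    Prop where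
  sw1 : ∀ a b c d e, D b a c d e = - D a b c d e
  sw2 : ∀ a b c d e, D a c b d e = - D a b c d e
  sw3 : ∀ a b c d e, D a b d c e = - D a b c d e
  sw4 : ∀ a b c d e, D a b c e d = - D a b c d e
  gp : ∀ x y z a b c d,
    D x y z a b * D x y z c d - D x y z a c * D x y z b d + D x y z a d * D x y z b c = 0
  fac : ∀ i j k l, (i, j, k, l) ∈ F → ∀ x y, x < 12 → y < 12 →
    (x ≠ i ∧ x ≠ j ∧ x ≠ k ∧ x ≠ l) → (y ≠ i ∧ y ≠ j ∧ y ≠ k ∧ y ≠ l) →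
    0 < D i j k l x * D i j k l y

section
variable {D : Nat → Nat → Nat → Nat → Nat → ℝ} {F : List (Nat × Nat × Nat × Nat)}

noncomputable def ST.val (D : Nat → Nat → Nat → Nat → Nat → ℝ) (t : ST) : Int :=
  t.s * sg (D t.a t.b t.c t.d t.e)

noncomputable def chi (D : Nat → Nat → Nat → Nat → Nat → ℝ) (k : Nat) : Int :=
  sg (D (k % 16) (k / 16 % 16) (k / 256 % 16) (k / 4096 % 16) (k / 65536))

theorem val_c1 (h : Bracket D F) (t : ST) : t.c1.val D = t.val D := by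
  unfold ST.c1; split_ifs
  · simp only [ST.val]; rw [h.sw1, sg_neg]; ring
  · rfl
theorem val_c2 (h : Bracket D F) (t : ST) : t.c2.val D = t.val D := by
  unfold ST.c2; split_ifs
  · simp only [ST.val]; rw [h.sw2, sg_neg]; ring
  · rfl
theorem val_c3 (h : Bracket D F) (t : ST) : t.c3.val D = t.val D := by
  unfold ST.c3; split_ifs
  · simp only [ST.val]; rw [h.sw3, sg_neg]; ring
  · rfl
theorem val_c4 (h : Bracket D F) (t : ST) : t.c4.val D = t.val D := by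
  unfold ST.c4; split_ifs
  · simp only [ST.val]; rw [h.sw4, sg_neg]; ring
  · rfl

theorem val_srt (h : Bracket D F) (t : ST) : t.srt.val D = t.val D := by
  simp only [ST.srt, val_c1 h, val_c2 h, val_c3 h, val_c4 h]

theorem chi_key (t : ST) (ht : t.small = true) : t.s * chi D t.key = t.val D := by
  obtain ⟨s, a, b, c, d, e⟩ := t
  simp only [ST.small, Bool.and_eq_true, decide_eq_true_eq] at ht
  obtain ⟨⟨⟨⟨ha, hb⟩, hc⟩, hd⟩, he⟩ := ht
  simp only [ST.val, chi, ST.key]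
  have h1 : (a + 16 * (b + 16 * (c + 16 * (d + 16 * e)))) % 16 = a := by omega
  have h2 : (a + 16 * (b + 16 * (c + 16 * (d + 16 * e)))) / 16 % 16 = b := by omega
  have h3 : (a + 16 * (b + 16 * (c + 16 * (d + 16 * e)))) / 256 % 16 = c := by omega
  have h4 : (a + 16 * (b + 16 * (c + 16 * (d + 16 * e)))) / 4096 % 16 = d := by omega
  have h5 : (a + 16 * (b + 16 * (c + 16 * (d + 16 * e)))) / 65536 = e := by omega
  rw [h1, h2, h3, h4, h5]

theorem chi_srt (h : Bracket D F) (a b c d e : Nat) (ht : (ST.mk 1 a b c d e).srt.small = true) :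
    (ST.mk 1 a b c d e).srt.s * chi D (ST.mk 1 a b c d e).srt.key = sg (D a b c d e) := by
  rw [chi_key _ ht, val_srt h]; simp [ST.val]

theorem check_sound (h : Bracket D F) (t : Cert) :
    ∀ st : Nat → List Int, (∀ k, chi D k ∈ st k) → check F t st = false := by
  induction t with
  | gp x y z a b c d =>
    intro st hst
    by_contra hc
    simp only [check, Bool.not_eq_false, Bool.and_eq_true, List.all_eq_true] at hc
    obtain ⟨⟨⟨⟨⟨⟨h1, h2⟩, h3⟩, h4⟩, h5⟩, h6⟩, hall⟩ := hc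
    have := hall _ (hst _) _ (hst _) _ (hst _) _ (hst _) _ (hst _) _ (hst _)
    rw [chi_srt h _ _ _ _ _ h1, chi_srt h _ _ _ _ _ h2, chi_srt h _ _ _ _ _ h3,
      chi_srt h _ _ _ _ _ h4, chi_srt h _ _ _ _ _ h5, chi_srt h _ _ _ _ _ h6,
      ← sg_mul, ← sg_mul, ← sg_mul, ← sg_neg, ok3_of_sum (by linarith [h.gp x y z a b c d])]
      at this
    simp at this
  | fac i j k l x y =>
    intro st hst
    by_contra hc
    simp only [check, Bool.not_eq_false, Bool.and_eq_true, List.all_eq_true,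
      decide_eq_true_eq] at hc
    obtain ⟨⟨⟨⟨⟨⟨⟨hF, hx⟩, hy⟩, hx'⟩, hy'⟩, h1⟩, h2⟩, hall⟩ := hc
    have := hall _ (hst _) _ (hst _)
    rw [chi_srt h _ _ _ _ _ h1, chi_srt h _ _ _ _ _ h2, ← sg_mul,
      sg_pos (h.fac i j k l hF x y hx hy hx' hy')] at this
    exact this rfl
  | split k m l r ihl ihr =>
    intro st hst
    simp only [check, Bool.and_eq_false_iff]
    by_cases hm : chi D k ∈ m
    · left
      apply ihl
      intro j
      unfold upd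
      split_ifs with hj
      · subst hj; simp [hst, hm]
      · exact hst j
    · right
      apply ihr
      intro j
      unfold upd
      split_ifs with hj
      · subst hj; simp [hst, hm]
      · exact hst j

theorem no_bracket (t : Cert) (ht : check F t (fun _ => [1, 0, -1]) = true) : ¬ Bracket D F := by
  intro h
  have := check_sound h t (fun _ => [1, 0, -1]) (fun k => sg_mem _)
  rw [ht] at this
  exact absurd this (by simp)

end

end Pool.Agent.MP_952ea4_co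

end

section

/-! The certificate (computer generated). Vertices a,b,c,d,m,n,o,p,q,r,s,t are 0,...,11. -/

namespace Pool.Agent.MP_952ea4_co

def facetList : List (Nat × Nat × Nat × Nat) :=
  [(0, 1, 2, 3), (0, 1, 2, 9), (0, 2, 3, 9), (0, 1, 3, 11), (1, 2, 3, 11), (0, 1, 4, 9), (1, 2, 5, 9), (2, 3, 6, 9), (3, 0, 7, 9), (0, 1, 4, 11), (1, 2, 5, 11), (2, 3, 6, 11), (3, 0, 7, 11), (4, 5, 6, 7), (4, 5, 6, 8), (4, 6, 7, 8), (5, 6, 7, 10), (4, 5, 7, 10), (0, 5, 6, 8), (1, 6, 7, 8), (2, 7, 4, 8), (0, 5, 6, 10), (1, 6, 7, 10), (2, 7, 4, 10)]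

def certPP : Cert :=
  (.split 274960 [0, -1] (.fac 0 1 2 3 9 4)
  (.split 406032 [0, -1] (.fac 0 1 2 3 9 6)
  (.split 471568 [0, -1] (.fac 0 1 2 3 9 7)
  (.split 606736 [0, -1] (.fac 0 1 2 9 3 4)
  (.split 733712 [0, -1] (.fac 0 1 2 3 9 11)
  (.split 738064 [1, 0] (.fac 0 1 3 11 2 4)
  (.split 737808 [1, 0] (.fac 0 1 4 11 3 2)
  (.split 742177 [1, 0] (.fac 1 2 3 11 0 5)
  (.split 741904 [1, 0] (.fac 1 2 5 11 3 0)
  (.split 614928 [0, -1] (.fac 0 1 2 9 3 6)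
  (.split 619024 [0, -1] (.fac 0 1 2 9 3 7)
  (.split 606992 [0, -1] (.fac 0 1 4 9 2 3)
  (.split 746256 [1, 0] (.fac 0 1 3 11 2 6)
  (.split 619296 [0, -1] (.fac 0 2 3 9 1 7)
  (.split 619280 [0, -1] (.fac 3 0 7 9 2 1)
  (.split 750352 [1, 0] (.fac 0 1 3 11 2 7)
  (.split 615440 [1, 0] (.fac 0 1 4 9 2 6)
  (.split 746512 [0, -1] (.fac 0 1 4 11 3 6)
  (.split 619536 [1, 0] (.fac 0 1 4 9 2 7)
  (.split 750608 [0, -1] (.fac 0 1 4 11 3 7)
  (.split 754704 [0, -1] (.fac 0 1 4 11 3 8)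
  (.split 693264 [0, -1] (.fac 0 1 4 9 2 10)
  (.split 550208 [1, 0] (.fac 4 5 6 8 7 0)
  (.split 550160 [1, 0] (.fac 0 5 6 8 4 1)
  (.split 554561 [1, 0] (.fac 4 6 7 8 5 1)
  (.split 554512 [0, -1] (.fac 1 6 7 8 4 0)
  (.split 685652 [0, -1] (.fac 4 5 6 7 8 10)
  (.split 685649 [0, -1] (.fac 5 6 7 10 4 1)
  (.split 685584 [1, 0] (.fac 1 6 7 10 5 0)
  (.split 607008 [0, -1] (.fac 0 2 3 9 1 4)
  (.split 615200 [0, -1] (.fac 0 2 3 9 1 6)
  (.split 746273 [1, 0] (.fac 1 2 3 11 0 6)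
  (.split 746272 [1, 0] (.fac 2 3 6 11 1 0)
  (.split 554562 [1, 0] (.fac 4 6 7 8 5 2)
  (.split 554016 [1, 0] (.fac 2 7 4 8 6 0)
  (.split 685378 [0, -1] (.fac 4 5 7 10 6 2)
  (.split 685088 [0, -1] (.fac 2 7 4 10 5 0)
  (.split 619568 [1, 0] (.fac 3 0 7 9 2 4)
  (.split 750640 [0, -1] (.fac 3 0 7 11 1 4)
  (.split 619824 [1, 0] (.fac 3 0 7 9 2 5)
  (.split 620080 [1, 0] (.fac 3 0 7 9 2 6)
  (.split 751152 [0, -1] (.fac 3 0 7 11 1 6)
  (.split 624432 [0, -1] (.fac 3 0 7 9 2 8)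
  (.split 694064 [1, 0] (.fac 3 0 7 9 2 10)
  (.split 484672 [0, -1] (.fac 4 5 6 7 8 0)
  (.split 685648 [0, -1] (.fac 5 6 7 10 4 0)
  (.split 681280 [0, -1] (.fac 0 5 6 10 7 4)
  (.split 685376 [0, -1] (.fac 4 5 7 10 6 0)
  (.split 554560 [1, 0] (.fac 4 6 7 8 5 0)
  (.split 554576 [1, 0] (.fac 0 5 6 8 4 7)
  (.split 693840 [0, -1] (.fac 0 5 6 10 7 9)
  (.split 615201 [0, -1] (.fac 2 3 6 9 0 1)
  (.split 742433 [1, 0] (.fac 1 2 5 11 3 4)
  (.split 554017 [1, 0] (.fac 2 7 4 8 6 1)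
  (.split 685089 [0, -1] (.fac 2 7 4 10 5 1)
  (.split 610832 [0, -1] (.fac 0 1 2 9 3 5)
  (.split 619809 [1, 0] (.fac 1 2 5 9 0 7)
  (.split 685601 [0, -1] (.fac 1 6 7 10 5 2)
  (.split 554545 [1, 0] (.fac 1 6 7 8 4 3)
  (.split 685617 [0, -1] (.fac 1 6 7 10 5 3)
  (.split 685633 [0, -1] (.fac 1 6 7 10 5 4)
  (.split 624481 [0, -1] (.fac 1 6 7 8 4 9)
  (.split 755553 [0, -1] (.fac 1 6 7 8 4 11)
  (.split 694113 [0, -1] (.fac 1 6 7 10 5 9)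
  (.split 620082 [1, 0] (.fac 2 3 6 9 0 7)
  (.split 751154 [0, -1] (.fac 2 3 6 11 1 7)
  (.split 484674 [0, -1] (.fac 4 5 6 7 8 2)
  (.split 554306 [1, 0] (.fac 2 7 4 8 6 5)
  (.split 763714 [0, -1] (.fac 2 7 4 10 5 11)
  (.split 624484 [1, 0] (.fac 4 6 7 8 5 9)
  (.split 549904 [1, 0] (.gp 0 6 8 1 4 5 7)
  (.split 619552 [1, 0] (.gp 0 4 9 1 2 3 7)
  (.split 751153 [0, -1] (.gp 3 6 11 0 1 2 7)
  (.split 620096 [0, -1] (.split 620048 [1, 0] (.gp 0 7 9 1 3 4 6)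
  (.split 615184 [0, -1] (.gp 0 1 9 3 4 6 7)
  (.split 620081 [1, 0] (.gp 3 6 9 0 1 2 7)
  (.split 484112 [1, 0] (.gp 1 6 7 0 3 9 10)
  (.split 483856 [1, 0] (.gp 0 1 6 2 3 7 9)
  (.split 751120 [1, 0] (.gp 1 6 7 0 3 8 11)
  (.split 759568 [0, -1] (.gp 0 1 7 3 6 9 11)
  (.split 750096 [1, 0] (.gp 0 1 7 2 3 6 11)
  (.split 484368 [0, -1] (.gp 0 1 7 4 6 9 11)
  (.split 484385 [1, 0] (.gp 1 6 7 0 2 4 10)
  (.split 480289 [1, 0] (.gp 2 4 7 1 5 6 8)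
  (.split 554000 [1, 0] (.gp 0 1 4 6 7 8 11)
  (.split 624480 [1, 0] (.gp 0 6 7 1 4 8 9)
  (.split 620097 [0, -1] (.gp 6 7 9 0 1 4 8)
  (.split 475664 [0, -1] (.gp 1 4 7 0 2 6 8)
  (.split 475936 [0, -1] (.gp 0 2 7 1 3 4 9)
  (.split 619553 [0, -1] (.gp 1 4 7 0 2 6 9)
  (.split 479760 [1, 0] (.gp 1 2 7 0 4 5 9)
  (.split 475920 [0, -1] (.gp 0 1 4 2 3 7 9)
  (.split 750624 [0, -1] (.gp 0 4 7 1 2 3 11)
  (.split 344592 [0, -1] (.gp 0 1 2 4 5 7 11)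
  (.split 750625 [1] (.gp 1 2 4 0 5 7 11)
  (.gp 2 4 7 0 1 10 11)))))))))))))))))))))))
  (.split 694080 [0, -1] (.split 694112 [1, 0] (.gp 0 7 9 3 4 6 10)
  (.split 693824 [1, 0] (.gp 0 4 9 1 6 7 10)
  (.split 685632 [1, 0] (.gp 0 6 10 4 5 7 9)
  (.split 620112 [1, 0] (.gp 0 6 7 4 5 9 10)
  (.split 694096 [1, 0] (.gp 0 7 9 3 5 6 10)
  (.split 619840 [1] (.gp 0 5 7 4 6 9 10)
  (.gp 0 7 9 3 4 5 6)))))))
  (.split 685632 [-1] (.split 619840 [1, 0] (.gp 0 4 7 5 6 9 10)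
  (.split 620112 [0, -1] (.gp 0 7 9 3 4 5 6)
  (.split 694096 [1, 0] (.gp 0 5 7 4 6 9 10)
  (.split 694112 [1] (.gp 0 7 9 3 5 6 10)
  (.gp 0 6 7 4 5 9 10)))))
  (.split 619840 [0, -1] (.gp 0 4 7 5 6 9 10)
  (.split 480288 [1, 0] (.gp 0 4 7 2 5 9 10)
  (.split 484384 [1, 0] (.gp 0 4 7 2 5 6 9)
  (.split 624448 [0, -1] (.gp 0 4 7 2 6 8 9)
  (.split 624480 [0, -1] (.gp 0 7 9 3 4 6 8)
  (.split 484368 [1] (.split 554000 [-1] (.gp 0 4 7 1 6 8 9)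
  (.gp 0 1 4 6 7 8 11))
  (.split 620048 [1, 0] (.gp 0 6 7 1 4 8 9)
  (.split 615184 [0, -1] (.gp 0 1 9 3 4 6 7)
  (.split 620081 [1, 0] (.gp 3 6 9 0 1 2 7)
  (.split 484112 [1, 0] (.gp 1 6 7 0 3 9 10)
  (.split 483856 [1, 0] (.gp 0 1 6 2 3 7 9)
  (.split 751120 [1, 0] (.gp 1 6 7 0 3 8 11)
  (.split 759568 [1] (.gp 0 1 7 4 6 9 11)
  (.gp 0 1 7 3 6 9 11))))))))))))))))))))))))))))))))))))))))))))))))))))))))))))))))))))))))))))))))))))))))))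

def certPM : Cert :=
  (.split 406032 [0, -1] (.fac 0 1 2 3 9 6)
  (.split 610832 [0, -1] (.fac 0 1 2 9 3 5)
  (.split 614928 [0, -1] (.fac 0 1 2 9 3 6)
  (.split 619024 [0, -1] (.fac 0 1 2 9 3 7)
  (.split 733712 [0, -1] (.fac 0 1 2 3 9 11)
  (.split 746256 [1, 0] (.fac 0 1 3 11 2 6)
  (.split 619296 [0, -1] (.fac 0 2 3 9 1 7)
  (.split 619280 [0, -1] (.fac 3 0 7 9 2 1)
  (.split 606736 [0, -1] (.fac 0 1 2 9 3 4)
  (.split 615440 [1, 0] (.fac 0 1 4 9 2 6)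
  (.split 738064 [1, 0] (.fac 0 1 3 11 2 4)
  (.split 746512 [0, -1] (.fac 0 1 4 11 3 6)
  (.split 550208 [0, -1] (.fac 4 5 6 8 7 0)
  (.split 550160 [0, -1] (.fac 0 5 6 8 4 1)
  (.split 685652 [1, 0] (.fac 4 5 6 7 8 10)
  (.split 685648 [1, 0] (.fac 5 6 7 10 4 0)
  (.split 681232 [1, 0] (.fac 0 5 6 10 7 1)
  (.split 554561 [0, -1] (.fac 4 6 7 8 5 1)
  (.split 554512 [1, 0] (.fac 1 6 7 8 4 0)
  (.split 685649 [1, 0] (.fac 5 6 7 10 4 1)
  (.split 685584 [0, -1] (.fac 1 6 7 10 5 0)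
  (.split 611104 [0, -1] (.fac 0 2 3 9 1 5)
  (.split 615200 [0, -1] (.fac 0 2 3 9 1 6)
  (.split 746273 [1, 0] (.fac 1 2 3 11 0 6)
  (.split 746272 [1, 0] (.fac 2 3 6 11 1 0)
  (.split 550176 [0, -1] (.fac 0 5 6 8 4 2)
  (.split 681248 [1, 0] (.fac 0 5 6 10 7 2)
  (.split 620080 [1, 0] (.fac 3 0 7 9 2 6)
  (.split 750352 [1, 0] (.fac 0 1 3 11 2 7)
  (.split 751152 [0, -1] (.fac 3 0 7 11 1 6)
  (.split 484672 [1, 0] (.fac 4 5 6 7 8 0)
  (.split 624208 [1, 0] (.fac 0 5 6 8 4 9)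
  (.split 755280 [1, 0] (.fac 0 5 6 8 4 11)
  (.split 611105 [0, -1] (.fac 1 2 5 9 0 3)
  (.split 615201 [0, -1] (.fac 2 3 6 9 0 1)
  (.split 750369 [1, 0] (.fac 1 2 3 11 0 7)
  (.split 611361 [0, -1] (.fac 1 2 5 9 0 4)
  (.split 685378 [1, 0] (.fac 4 5 7 10 6 2)
  (.split 685089 [1, 0] (.fac 2 7 4 10 5 1)
  (.split 615713 [1, 0] (.fac 1 2 5 9 0 6)
  (.split 742177 [1, 0] (.fac 1 2 3 11 0 5)
  (.split 746785 [0, -1] (.fac 1 2 5 11 3 6)
  (.split 619809 [1, 0] (.fac 1 2 5 9 0 7)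
  (.split 750881 [0, -1] (.fac 1 2 5 11 3 7)
  (.split 623905 [1, 0] (.fac 1 2 5 9 0 8)
  (.split 693537 [0, -1] (.fac 1 2 5 9 0 10)
  (.split 554529 [0, -1] (.fac 1 6 7 8 4 2)
  (.split 685601 [1, 0] (.fac 1 6 7 10 5 2)
  (.split 554545 [0, -1] (.fac 1 6 7 8 4 3)
  (.split 685617 [1, 0] (.fac 1 6 7 10 5 3)
  (.split 484673 [1, 0] (.fac 4 5 6 7 8 1)
  (.split 550209 [0, -1] (.fac 4 5 6 8 7 1)
  (.split 685377 [1, 0] (.fac 4 5 7 10 6 1)
  (.split 685633 [1, 0] (.fac 1 6 7 10 5 4)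
  (.split 554577 [0, -1] (.fac 1 6 7 8 4 5)
  (.split 624481 [1, 0] (.fac 1 6 7 8 4 9)
  (.split 755553 [1, 0] (.fac 1 6 7 8 4 11)
  (.split 694113 [1, 0] (.fac 1 6 7 10 5 9)
  (.split 615474 [0, -1] (.fac 2 3 6 9 0 4)
  (.split 615730 [0, -1] (.fac 2 3 6 9 0 5)
  (.split 746802 [1, 0] (.fac 2 3 6 11 1 5)
  (.split 620082 [1, 0] (.fac 2 3 6 9 0 7)
  (.split 751154 [0, -1] (.fac 2 3 6 11 1 7)
  (.split 624178 [1, 0] (.fac 2 3 6 9 0 8)
  (.split 693810 [0, -1] (.fac 2 3 6 9 0 10)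
  (.split 484674 [1, 0] (.fac 4 5 6 7 8 2)
  (.split 550210 [0, -1] (.fac 4 5 6 8 7 2)
  (.split 685634 [1, 0] (.fac 2 7 4 10 5 6)
  (.split 554562 [0, -1] (.fac 4 6 7 8 5 2)
  (.split 624450 [0, -1] (.fac 2 7 4 8 6 9)
  (.split 694082 [0, -1] (.fac 2 7 4 10 5 9)
  (.split 685650 [1, 0] (.fac 5 6 7 10 4 2)
  (.split 620116 [1, 0] (.fac 4 5 6 7 8 9)
  (.split 624212 [0, -1] (.fac 4 5 6 8 7 9)
  (.split 624484 [0, -1] (.fac 4 6 7 8 5 9)
  (.split 694117 [0, -1] (.fac 5 6 7 10 4 9)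
  (.split 685345 [1, 0] (.gp 1 7 10 2 4 5 6)
  (.split 751153 [0, -1] (.gp 3 6 11 0 1 2 7)
  (.split 615712 [1, 0] (.gp 2 5 9 0 1 3 6)
  (.split 620114 [0, -1] (.split 620065 [0, -1] (.gp 2 6 9 1 3 5 7)
  (.split 619297 [0, -1] (.gp 1 2 9 3 5 6 7)
  (.split 620081 [1, 0] (.gp 3 7 9 0 1 2 6)
  (.split 484129 [0, -1] (.gp 1 6 7 2 3 9 10)
  (.split 620064 [0, -1] (.gp 2 6 9 0 1 3 7)
  (.split 759649 [0, -1] (.gp 1 6 7 3 8 9 11)
  (.split 751137 [0, -1] (.gp 1 6 7 2 8 9 11)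
  (.split 620048 [0, -1] (.gp 0 7 9 1 2 3 6)
  (.split 759585 [0, -1] (.gp 1 2 7 3 6 9 11)
  (.split 483856 [0, -1] (.gp 1 6 7 0 2 9 10)
  (.split 484641 [1, 0] (.gp 1 2 7 5 6 9 11)
  (.split 746000 [1, 0] (.gp 1 2 6 0 3 7 11)
  (.split 484624 [0, -1] (.gp 1 6 7 0 2 5 8)
  (.split 746784 [0, -1] (.gp 2 6 11 0 1 3 5)
  (.split 694114 [0, -1] (.gp 2 6 7 1 5 9 10)
  (.split 414736 [0, -1] (.gp 1 5 6 0 4 7 8)
  (.split 681249 [1, 0] (.gp 1 2 5 6 7 9 10)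
  (.split 620113 [0, -1] (.gp 6 7 9 1 2 5 10)
  (.split 620112 [0, -1] (.gp 6 7 9 0 1 2 5)
  (.split 414224 [0, -1] (.gp 1 5 6 0 2 7 10)
  (.split 746768 [0, -1] (.gp 0 5 6 1 2 8 11)
  (.split 410128 [0, -1] (.gp 0 1 6 2 4 5 11)
  (.split 615696 [1, 0] (.gp 0 1 6 2 4 5 9)
  (.split 615744 [-1] (.gp 0 5 6 1 4 7 9)
  (.gp 0 5 6 1 4 8 9)))))))))))))))))))))))))
  (.split 615746 [-1] (.split 619842 [1, 0] (.gp 2 5 9 1 4 6 7)
  (.split 620098 [1] (.gp 2 4 7 5 6 9 10)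
  (.gp 2 6 9 3 4 5 7)))
  (.split 624210 [-1] (.split 624194 [1, 0] (.gp 2 6 9 3 4 5 8)
  (.split 620098 [0, -1] (.gp 4 6 9 2 5 7 8)
  (.split 619842 [0, -1] (.gp 2 4 7 5 6 9 10)
  (.split 623938 [-1] (.gp 2 5 9 1 4 6 8)
  (.gp 2 4 9 5 6 7 8)))))
  (.split 554578 [0, -1] (.gp 2 5 6 4 7 8 9)
  (.split 484640 [0, -1] (.gp 2 5 6 0 7 8 9)
  (.split 693842 [0, -1] (.gp 2 5 6 0 7 9 10)
  (.split 693793 [1, 0] (.gp 2 6 9 1 3 5 10)
  (.split 694114 [1, 0] (.gp 2 6 9 3 5 7 10)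
  (.split 694049 [0, -1] (.gp 2 7 10 1 4 6 9)
  (.split 681249 [0, -1] (.gp 1 2 10 5 6 7 9)
  (.split 484641 [0, -1] (.gp 1 2 5 6 7 9 10)
  (.split 620065 [0, -1] (.gp 2 6 7 1 5 9 10)
  (.split 619297 [0, -1] (.gp 1 2 9 3 5 6 7)
  (.split 620081 [1, 0] (.gp 3 7 9 0 1 2 6)
  (.split 484129 [0, -1] (.gp 1 6 7 2 3 9 10)
  (.split 620064 [0, -1] (.gp 2 6 9 0 1 3 7)
  (.split 759649 [0, -1] (.gp 1 6 7 3 8 9 11)
  (.split 751137 [0, -1] (.gp 1 6 7 2 8 9 11)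
  (.split 759585 [-1] (.gp 1 2 7 3 6 9 11)
  (.gp 1 2 7 5 6 9 11)))))))))))))))))))))))))))))))))))))))))))))))))))))))))))))))))))))))))))))))))))))))))))))))))))

def certMP : Cert :=
  (.split 406032 [1, 0] (.fac 0 1 2 3 9 6)
  (.split 610832 [1, 0] (.fac 0 1 2 9 3 5)
  (.split 614928 [1, 0] (.fac 0 1 2 9 3 6)
  (.split 619024 [1, 0] (.fac 0 1 2 9 3 7)
  (.split 733712 [1, 0] (.fac 0 1 2 3 9 11)
  (.split 746256 [0, -1] (.fac 0 1 3 11 2 6)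
  (.split 619296 [1, 0] (.fac 0 2 3 9 1 7)
  (.split 619280 [1, 0] (.fac 3 0 7 9 2 1)
  (.split 606736 [1, 0] (.fac 0 1 2 9 3 4)
  (.split 615440 [0, -1] (.fac 0 1 4 9 2 6)
  (.split 738064 [0, -1] (.fac 0 1 3 11 2 4)
  (.split 746512 [1, 0] (.fac 0 1 4 11 3 6)
  (.split 550208 [1, 0] (.fac 4 5 6 8 7 0)
  (.split 550160 [1, 0] (.fac 0 5 6 8 4 1)
  (.split 685652 [0, -1] (.fac 4 5 6 7 8 10)
  (.split 685648 [0, -1] (.fac 5 6 7 10 4 0)
  (.split 681232 [0, -1] (.fac 0 5 6 10 7 1)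
  (.split 554561 [1, 0] (.fac 4 6 7 8 5 1)
  (.split 554512 [0, -1] (.fac 1 6 7 8 4 0)
  (.split 685649 [0, -1] (.fac 5 6 7 10 4 1)
  (.split 685584 [1, 0] (.fac 1 6 7 10 5 0)
  (.split 611104 [1, 0] (.fac 0 2 3 9 1 5)
  (.split 615200 [1, 0] (.fac 0 2 3 9 1 6)
  (.split 746273 [0, -1] (.fac 1 2 3 11 0 6)
  (.split 746272 [0, -1] (.fac 2 3 6 11 1 0)
  (.split 550176 [1, 0] (.fac 0 5 6 8 4 2)
  (.split 681248 [0, -1] (.fac 0 5 6 10 7 2)
  (.split 620080 [0, -1] (.fac 3 0 7 9 2 6)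
  (.split 750352 [0, -1] (.fac 0 1 3 11 2 7)
  (.split 751152 [1, 0] (.fac 3 0 7 11 1 6)
  (.split 484672 [0, -1] (.fac 4 5 6 7 8 0)
  (.split 624208 [0, -1] (.fac 0 5 6 8 4 9)
  (.split 755280 [0, -1] (.fac 0 5 6 8 4 11)
  (.split 611105 [1, 0] (.fac 1 2 5 9 0 3)
  (.split 615201 [1, 0] (.fac 2 3 6 9 0 1)
  (.split 750369 [0, -1] (.fac 1 2 3 11 0 7)
  (.split 611361 [1, 0] (.fac 1 2 5 9 0 4)
  (.split 685378 [0, -1] (.fac 4 5 7 10 6 2)
  (.split 685089 [0, -1] (.fac 2 7 4 10 5 1)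
  (.split 615713 [0, -1] (.fac 1 2 5 9 0 6)
  (.split 742177 [0, -1] (.fac 1 2 3 11 0 5)
  (.split 746785 [1, 0] (.fac 1 2 5 11 3 6)
  (.split 619809 [0, -1] (.fac 1 2 5 9 0 7)
  (.split 750881 [1, 0] (.fac 1 2 5 11 3 7)
  (.split 623905 [0, -1] (.fac 1 2 5 9 0 8)
  (.split 693537 [1, 0] (.fac 1 2 5 9 0 10)
  (.split 554529 [1, 0] (.fac 1 6 7 8 4 2)
  (.split 685601 [0, -1] (.fac 1 6 7 10 5 2)
  (.split 554545 [1, 0] (.fac 1 6 7 8 4 3)
  (.split 685617 [0, -1] (.fac 1 6 7 10 5 3)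
  (.split 484673 [0, -1] (.fac 4 5 6 7 8 1)
  (.split 550209 [1, 0] (.fac 4 5 6 8 7 1)
  (.split 685377 [0, -1] (.fac 4 5 7 10 6 1)
  (.split 685633 [0, -1] (.fac 1 6 7 10 5 4)
  (.split 554577 [1, 0] (.fac 1 6 7 8 4 5)
  (.split 624481 [0, -1] (.fac 1 6 7 8 4 9)
  (.split 755553 [0, -1] (.fac 1 6 7 8 4 11)
  (.split 694113 [0, -1] (.fac 1 6 7 10 5 9)
  (.split 615474 [1, 0] (.fac 2 3 6 9 0 4)
  (.split 615730 [1, 0] (.fac 2 3 6 9 0 5)
  (.split 746802 [0, -1] (.fac 2 3 6 11 1 5)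
  (.split 620082 [0, -1] (.fac 2 3 6 9 0 7)
  (.split 751154 [1, 0] (.fac 2 3 6 11 1 7)
  (.split 624178 [0, -1] (.fac 2 3 6 9 0 8)
  (.split 693810 [1, 0] (.fac 2 3 6 9 0 10)
  (.split 484674 [0, -1] (.fac 4 5 6 7 8 2)
  (.split 550210 [1, 0] (.fac 4 5 6 8 7 2)
  (.split 685634 [0, -1] (.fac 2 7 4 10 5 6)
  (.split 554562 [1, 0] (.fac 4 6 7 8 5 2)
  (.split 624450 [1, 0] (.fac 2 7 4 8 6 9)
  (.split 694082 [1, 0] (.fac 2 7 4 10 5 9)
  (.split 685650 [0, -1] (.fac 5 6 7 10 4 2)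
  (.split 620116 [0, -1] (.fac 4 5 6 7 8 9)
  (.split 624212 [1, 0] (.fac 4 5 6 8 7 9)
  (.split 624484 [1, 0] (.fac 4 6 7 8 5 9)
  (.split 694117 [1, 0] (.fac 5 6 7 10 4 9)
  (.split 685345 [0, -1] (.gp 1 7 10 2 4 5 6)
  (.split 751153 [1, 0] (.gp 3 6 11 0 1 2 7)
  (.split 615712 [0, -1] (.gp 2 5 9 0 1 3 6)
  (.split 620114 [1, 0] (.split 620065 [1, 0] (.gp 2 6 9 1 3 5 7)
  (.split 619297 [1, 0] (.gp 1 2 9 3 5 6 7)
  (.split 620081 [0, -1] (.gp 3 7 9 0 1 2 6)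
  (.split 484129 [1, 0] (.gp 1 6 7 2 3 9 10)
  (.split 620064 [1, 0] (.gp 2 6 9 0 1 3 7)
  (.split 759649 [1, 0] (.gp 1 6 7 3 8 9 11)
  (.split 751137 [1, 0] (.gp 1 6 7 2 8 9 11)
  (.split 620048 [1, 0] (.gp 0 7 9 1 2 3 6)
  (.split 759585 [1, 0] (.gp 1 2 7 3 6 9 11)
  (.split 483856 [1, 0] (.gp 1 6 7 0 2 9 10)
  (.split 484641 [0, -1] (.gp 1 2 7 5 6 9 11)
  (.split 746000 [0, -1] (.gp 1 2 6 0 3 7 11)
  (.split 484624 [1, 0] (.gp 1 6 7 0 2 5 8)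
  (.split 746784 [1, 0] (.gp 2 6 11 0 1 3 5)
  (.split 694114 [1, 0] (.gp 2 6 7 1 5 9 10)
  (.split 414736 [1, 0] (.gp 1 5 6 0 4 7 8)
  (.split 681249 [0, -1] (.gp 1 2 5 6 7 9 10)
  (.split 620113 [1, 0] (.gp 6 7 9 1 2 5 10)
  (.split 620112 [1, 0] (.gp 6 7 9 0 1 2 5)
  (.split 414224 [1, 0] (.gp 1 5 6 0 2 7 10)
  (.split 746768 [1, 0] (.gp 0 5 6 1 2 8 11)
  (.split 410128 [1, 0] (.gp 0 1 6 2 4 5 11)
  (.split 615696 [0, -1] (.gp 0 1 6 2 4 5 9)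
  (.split 615744 [1] (.gp 0 5 6 1 4 7 9)
  (.gp 0 5 6 1 4 8 9)))))))))))))))))))))))))
  (.split 615746 [1] (.split 619842 [0, -1] (.gp 2 5 9 1 4 6 7)
  (.split 620098 [-1] (.gp 2 4 7 5 6 9 10)
  (.gp 2 6 9 3 4 5 7)))
  (.split 624210 [1] (.split 624194 [0, -1] (.gp 2 6 9 3 4 5 8)
  (.split 620098 [1, 0] (.gp 4 6 9 2 5 7 8)
  (.split 619842 [1, 0] (.gp 2 4 7 5 6 9 10)
  (.split 623938 [1] (.gp 2 5 9 1 4 6 8)
  (.gp 2 4 9 5 6 7 8)))))
  (.split 554578 [1, 0] (.gp 2 5 6 4 7 8 9)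
  (.split 484640 [1, 0] (.gp 2 5 6 0 7 8 9)
  (.split 693842 [1, 0] (.gp 2 5 6 0 7 9 10)
  (.split 693793 [0, -1] (.gp 2 6 9 1 3 5 10)
  (.split 694114 [0, -1] (.gp 2 6 9 3 5 7 10)
  (.split 694049 [1, 0] (.gp 2 7 10 1 4 6 9)
  (.split 681249 [1, 0] (.gp 1 2 10 5 6 7 9)
  (.split 484641 [1, 0] (.gp 1 2 5 6 7 9 10)
  (.split 620065 [1, 0] (.gp 2 6 7 1 5 9 10)
  (.split 619297 [1, 0] (.gp 1 2 9 3 5 6 7)
  (.split 620081 [0, -1] (.gp 3 7 9 0 1 2 6)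
  (.split 484129 [1, 0] (.gp 1 6 7 2 3 9 10)
  (.split 620064 [1, 0] (.gp 2 6 9 0 1 3 7)
  (.split 759649 [1, 0] (.gp 1 6 7 3 8 9 11)
  (.split 751137 [1, 0] (.gp 1 6 7 2 8 9 11)
  (.split 759585 [1] (.gp 1 2 7 3 6 9 11)
  (.gp 1 2 7 5 6 9 11)))))))))))))))))))))))))))))))))))))))))))))))))))))))))))))))))))))))))))))))))))))))))))))))))))

def certMM : Cert :=
  (.split 274960 [1, 0] (.fac 0 1 2 3 9 4)
  (.split 406032 [1, 0] (.fac 0 1 2 3 9 6)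
  (.split 471568 [1, 0] (.fac 0 1 2 3 9 7)
  (.split 606736 [1, 0] (.fac 0 1 2 9 3 4)
  (.split 733712 [1, 0] (.fac 0 1 2 3 9 11)
  (.split 738064 [0, -1] (.fac 0 1 3 11 2 4)
  (.split 737808 [0, -1] (.fac 0 1 4 11 3 2)
  (.split 742177 [0, -1] (.fac 1 2 3 11 0 5)
  (.split 741904 [0, -1] (.fac 1 2 5 11 3 0)
  (.split 614928 [1, 0] (.fac 0 1 2 9 3 6)
  (.split 619024 [1, 0] (.fac 0 1 2 9 3 7)
  (.split 606992 [1, 0] (.fac 0 1 4 9 2 3)
  (.split 746256 [0, -1] (.fac 0 1 3 11 2 6)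
  (.split 619296 [1, 0] (.fac 0 2 3 9 1 7)
  (.split 619280 [1, 0] (.fac 3 0 7 9 2 1)
  (.split 750352 [0, -1] (.fac 0 1 3 11 2 7)
  (.split 615440 [0, -1] (.fac 0 1 4 9 2 6)
  (.split 746512 [1, 0] (.fac 0 1 4 11 3 6)
  (.split 619536 [0, -1] (.fac 0 1 4 9 2 7)
  (.split 750608 [1, 0] (.fac 0 1 4 11 3 7)
  (.split 754704 [1, 0] (.fac 0 1 4 11 3 8)
  (.split 693264 [1, 0] (.fac 0 1 4 9 2 10)
  (.split 550208 [0, -1] (.fac 4 5 6 8 7 0)
  (.split 550160 [0, -1] (.fac 0 5 6 8 4 1)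
  (.split 554561 [0, -1] (.fac 4 6 7 8 5 1)
  (.split 554512 [1, 0] (.fac 1 6 7 8 4 0)
  (.split 685652 [1, 0] (.fac 4 5 6 7 8 10)
  (.split 685649 [1, 0] (.fac 5 6 7 10 4 1)
  (.split 685584 [0, -1] (.fac 1 6 7 10 5 0)
  (.split 607008 [1, 0] (.fac 0 2 3 9 1 4)
  (.split 615200 [1, 0] (.fac 0 2 3 9 1 6)
  (.split 746273 [0, -1] (.fac 1 2 3 11 0 6)
  (.split 746272 [0, -1] (.fac 2 3 6 11 1 0)
  (.split 554562 [0, -1] (.fac 4 6 7 8 5 2)
  (.split 554016 [0, -1] (.fac 2 7 4 8 6 0)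
  (.split 685378 [1, 0] (.fac 4 5 7 10 6 2)
  (.split 685088 [1, 0] (.fac 2 7 4 10 5 0)
  (.split 619568 [0, -1] (.fac 3 0 7 9 2 4)
  (.split 750640 [1, 0] (.fac 3 0 7 11 1 4)
  (.split 619824 [0, -1] (.fac 3 0 7 9 2 5)
  (.split 620080 [0, -1] (.fac 3 0 7 9 2 6)
  (.split 751152 [1, 0] (.fac 3 0 7 11 1 6)
  (.split 624432 [1, 0] (.fac 3 0 7 9 2 8)
  (.split 694064 [0, -1] (.fac 3 0 7 9 2 10)
  (.split 484672 [1, 0] (.fac 4 5 6 7 8 0)
  (.split 685648 [1, 0] (.fac 5 6 7 10 4 0)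
  (.split 681280 [1, 0] (.fac 0 5 6 10 7 4)
  (.split 685376 [1, 0] (.fac 4 5 7 10 6 0)
  (.split 554560 [0, -1] (.fac 4 6 7 8 5 0)
  (.split 554576 [0, -1] (.fac 0 5 6 8 4 7)
  (.split 693840 [1, 0] (.fac 0 5 6 10 7 9)
  (.split 615201 [1, 0] (.fac 2 3 6 9 0 1)
  (.split 742433 [0, -1] (.fac 1 2 5 11 3 4)
  (.split 554017 [0, -1] (.fac 2 7 4 8 6 1)
  (.split 685089 [1, 0] (.fac 2 7 4 10 5 1)
  (.split 610832 [1, 0] (.fac 0 1 2 9 3 5)
  (.split 619809 [0, -1] (.fac 1 2 5 9 0 7)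
  (.split 685601 [1, 0] (.fac 1 6 7 10 5 2)
  (.split 554545 [0, -1] (.fac 1 6 7 8 4 3)
  (.split 685617 [1, 0] (.fac 1 6 7 10 5 3)
  (.split 685633 [1, 0] (.fac 1 6 7 10 5 4)
  (.split 624481 [1, 0] (.fac 1 6 7 8 4 9)
  (.split 755553 [1, 0] (.fac 1 6 7 8 4 11)
  (.split 694113 [1, 0] (.fac 1 6 7 10 5 9)
  (.split 620082 [0, -1] (.fac 2 3 6 9 0 7)
  (.split 751154 [1, 0] (.fac 2 3 6 11 1 7)
  (.split 484674 [1, 0] (.fac 4 5 6 7 8 2)
  (.split 554306 [0, -1] (.fac 2 7 4 8 6 5)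
  (.split 763714 [1, 0] (.fac 2 7 4 10 5 11)
  (.split 624484 [0, -1] (.fac 4 6 7 8 5 9)
  (.split 549904 [0, -1] (.gp 0 6 8 1 4 5 7)
  (.split 619552 [0, -1] (.gp 0 4 9 1 2 3 7)
  (.split 751153 [1, 0] (.gp 3 6 11 0 1 2 7)
  (.split 620096 [1, 0] (.split 620048 [0, -1] (.gp 0 7 9 1 3 4 6)
  (.split 615184 [1, 0] (.gp 0 1 9 3 4 6 7)
  (.split 620081 [0, -1] (.gp 3 6 9 0 1 2 7)
  (.split 484112 [0, -1] (.gp 1 6 7 0 3 9 10)
  (.split 483856 [0, -1] (.gp 0 1 6 2 3 7 9)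
  (.split 751120 [0, -1] (.gp 1 6 7 0 3 8 11)
  (.split 759568 [1, 0] (.gp 0 1 7 3 6 9 11)
  (.split 750096 [0, -1] (.gp 0 1 7 2 3 6 11)
  (.split 484368 [1, 0] (.gp 0 1 7 4 6 9 11)
  (.split 484385 [0, -1] (.gp 1 6 7 0 2 4 10)
  (.split 480289 [0, -1] (.gp 2 4 7 1 5 6 8)
  (.split 554000 [0, -1] (.gp 0 1 4 6 7 8 11)
  (.split 624480 [0, -1] (.gp 0 6 7 1 4 8 9)
  (.split 620097 [1, 0] (.gp 6 7 9 0 1 4 8)
  (.split 475664 [1, 0] (.gp 1 4 7 0 2 6 8)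
  (.split 475936 [1, 0] (.gp 0 2 7 1 3 4 9)
  (.split 619553 [1, 0] (.gp 1 4 7 0 2 6 9)
  (.split 479760 [0, -1] (.gp 1 2 7 0 4 5 9)
  (.split 475920 [1, 0] (.gp 0 1 4 2 3 7 9)
  (.split 750624 [1, 0] (.gp 0 4 7 1 2 3 11)
  (.split 344592 [1, 0] (.gp 0 1 2 4 5 7 11)
  (.split 750625 [-1] (.gp 1 2 4 0 5 7 11)
  (.gp 2 4 7 0 1 10 11)))))))))))))))))))))))
  (.split 694080 [1, 0] (.split 694112 [0, -1] (.gp 0 7 9 3 4 6 10)
  (.split 693824 [0, -1] (.gp 0 4 9 1 6 7 10)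
  (.split 685632 [0, -1] (.gp 0 6 10 4 5 7 9)
  (.split 620112 [0, -1] (.gp 0 6 7 4 5 9 10)
  (.split 694096 [0, -1] (.gp 0 7 9 3 5 6 10)
  (.split 619840 [-1] (.gp 0 5 7 4 6 9 10)
  (.gp 0 7 9 3 4 5 6)))))))
  (.split 685632 [1] (.split 619840 [0, -1] (.gp 0 4 7 5 6 9 10)
  (.split 620112 [1, 0] (.gp 0 7 9 3 4 5 6)
  (.split 694096 [0, -1] (.gp 0 5 7 4 6 9 10)
  (.split 694112 [-1] (.gp 0 7 9 3 5 6 10)
  (.gp 0 6 7 4 5 9 10)))))
  (.split 619840 [1, 0] (.gp 0 4 7 5 6 9 10)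
  (.split 480288 [0, -1] (.gp 0 4 7 2 5 9 10)
  (.split 484384 [0, -1] (.gp 0 4 7 2 5 6 9)
  (.split 624448 [1, 0] (.gp 0 4 7 2 6 8 9)
  (.split 624480 [1, 0] (.gp 0 7 9 3 4 6 8)
  (.split 484368 [-1] (.split 554000 [1] (.gp 0 4 7 1 6 8 9)
  (.gp 0 1 4 6 7 8 11))
  (.split 620048 [0, -1] (.gp 0 6 7 1 4 8 9)
  (.split 615184 [1, 0] (.gp 0 1 9 3 4 6 7)
  (.split 620081 [0, -1] (.gp 3 6 9 0 1 2 7)
  (.split 484112 [0, -1] (.gp 1 6 7 0 3 9 10)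
  (.split 483856 [0, -1] (.gp 0 1 6 2 3 7 9)
  (.split 751120 [0, -1] (.gp 1 6 7 0 3 8 11)
  (.split 759568 [-1] (.gp 0 1 7 4 6 9 11)
  (.gp 0 1 7 3 6 9 11))))))))))))))))))))))))))))))))))))))))))))))))))))))))))))))))))))))))))))))))))))))))))

def cert : Cert :=
  .split 602640 [0] (.fac 0 1 2 3 9 9)
  (.split 602640 [1]
  (.split 554580 [0] (.fac 4 5 6 7 8 8) (.split 554580 [1] certPP certPM))
  (.split 554580 [0] (.fac 4 5 6 7 8 8) (.split 554580 [1] certMP certMM)))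

theorem cert_ok : check facetList cert (fun _ => [1, 0, -1]) = true := by decide +kernel

theorem no_bracket_facetList (D : Nat → Nat → Nat → Nat → Nat → ℝ) : ¬ Bracket D facetList :=
  no_bracket cert cert_ok

end Pool.Agent.MP_952ea4_co

end

section

namespace Pool.Agent.MP_952ea4_co

open Matrix

noncomputable def det5 (a b c d e : Fin 5 → ℝ) : ℝ := (Matrix.of ![a, b, c, d, e]).det

theorem det5_sw1 (a b c d e : Fin 5 → ℝ) : det5 b a c d e = - det5 a b c d e := by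
  have : Matrix.of ![b, a, c, d, e] = (Matrix.of ![a, b, c, d, e]).submatrix (Equiv.swap 0 1) id := by
    ext i j; fin_cases i <;> simp [Equiv.swap_apply_def]
  rw [det5, this, Matrix.det_permute, Equiv.Perm.sign_swap (by decide)]; simp [det5]

theorem det5_sw2 (a b c d e : Fin 5 → ℝ) : det5 a c b d e = - det5 a b c d e := by
  have : Matrix.of ![a, c, b, d, e] = (Matrix.of ![a, b, c, d, e]).submatrix (Equiv.swap 1 2) id := by
    ext i j; fin_cases i <;> simp [Equiv.swap_apply_def]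
  rw [det5, this, Matrix.det_permute, Equiv.Perm.sign_swap (by decide)]; simp [det5]

theorem det5_sw3 (a b c d e : Fin 5 → ℝ) : det5 a b d c e = - det5 a b c d e := by
  have : Matrix.of ![a, b, d, c, e] = (Matrix.of ![a, b, c, d, e]).submatrix (Equiv.swap 2 3) id := by
    ext i j; fin_cases i <;> simp [Equiv.swap_apply_def]
  rw [det5, this, Matrix.det_permute, Equiv.Perm.sign_swap (by decide)]; simp [det5]

theorem det5_sw4 (a b c d e : Fin 5 → ℝ) : det5 a b c e d = - det5 a b c d e := by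
  have : Matrix.of ![a, b, c, e, d] = (Matrix.of ![a, b, c, d, e]).submatrix (Equiv.swap 3 4) id := by
    ext i j; fin_cases i <;> simp [Equiv.swap_apply_def]
  rw [det5, this, Matrix.det_permute, Equiv.Perm.sign_swap (by decide)]; simp [det5]

theorem six_coord (a b c d e f : Fin 5 → ℝ) (j : Fin 5) :
    a j * det5 b c d e f - b j * det5 a c d e f + c j * det5 a b d e f - d j * det5 a b c e f
      + e j * det5 a b c d f - f j * det5 a b c d e = 0 := by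
  let u : Fin 6 → Fin 5 → ℝ := ![a, b, c, d, e, f]
  let M : Matrix (Fin 6) (Fin 6) ℝ := Matrix.of fun k => Fin.cons (u k j) (u k)
  have h0 : M.det = 0 := by
    apply Matrix.det_zero_of_column_eq (i := 0) (j := j.succ) (Fin.succ_ne_zero j).symm
    intro k; simp [M]
  rw [Matrix.det_succ_column_zero] at h0
  have e0 : M.submatrix (Fin.succAbove 0) Fin.succ = Matrix.of ![b, c, d, e, f] := by
    ext i k; fin_cases i <;> simp [M, u]
  have e1 : M.submatrix (Fin.succAbove 1) Fin.succ = Matrix.of ![a, c, d, e, f] := by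
    ext i k; fin_cases i <;> simp [M, u, Fin.succAbove]
  have e2 : M.submatrix (Fin.succAbove 2) Fin.succ = Matrix.of ![a, b, d, e, f] := by
    ext i k; fin_cases i <;> simp [M, u, Fin.succAbove]
  have e3 : M.submatrix (Fin.succAbove 3) Fin.succ = Matrix.of ![a, b, c, e, f] := by
    ext i k; fin_cases i <;> simp [M, u, Fin.succAbove]
  have e4 : M.submatrix (Fin.succAbove 4) Fin.succ = Matrix.of ![a, b, c, d, f] := by
    ext i k; fin_cases i <;> simp [M, u, Fin.succAbove]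
  have e5 : M.submatrix (Fin.succAbove 5) Fin.succ = Matrix.of ![a, b, c, d, e] := by
    ext i k; fin_cases i <;> simp [M, u, Fin.succAbove]
  rw [Fin.sum_univ_six, e0, e1, e2, e3, e4, e5] at h0
  simp only [det5]
  have m0 : M 0 0 = a j := by simp [M, u]
  have m1 : M 1 0 = b j := by simp [M, u]
  have m2 : M 2 0 = c j := by simp [M, u]
  have m3 : M 3 0 = d j := by simp [M, u]
  have m4 : M 4 0 = e j := by simp [M, u]
  have m5 : M 5 0 = f j := by simp [M, u]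
  rw [m0, m1, m2, m3, m4, m5] at h0
  norm_num at h0
  linarith

theorem six_lin (L : (Fin 5 → ℝ) →ₗ[ℝ] ℝ) (a b c d e f : Fin 5 → ℝ) :
    L a * det5 b c d e f - L b * det5 a c d e f + L c * det5 a b d e f - L d * det5 a b c e f
      + L e * det5 a b c d f - L f * det5 a b c d e = 0 := by
  have h : det5 b c d e f • a - det5 a c d e f • b + det5 a b d e f • c - det5 a b c e f • d
      + det5 a b c d f • e - det5 a b c d e • f = 0 := by
    ext j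
    have := six_coord a b c d e f j
    simp only [Pi.add_apply, Pi.sub_apply, Pi.smul_apply, smul_eq_mul, Pi.zero_apply]
    linarith
  have := congrArg L h
  simp only [map_add, map_sub, map_smul, smul_eq_mul, map_zero] at this
  linarith

theorem exists_lin (x y z a : Fin 5 → ℝ) :
    ∃ L : (Fin 5 → ℝ) →ₗ[ℝ] ℝ, ∀ v, L v = det5 x y z a v := by
  have h : ∀ v, det5 x y z a v = ((Matrix.of ![x, y, z, a, 0]).updateRow 4 v).det := by
    intro v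
    unfold det5
    congr 1
    ext i j; fin_cases i <;> simp [Matrix.updateRow_apply]
  refine ⟨IsLinearMap.mk' (fun v => det5 x y z a v) ⟨fun u v => ?_, fun c v => ?_⟩, fun v => rfl⟩
  · simp only [h, Matrix.det_updateRow_add]
  · simp only [h, Matrix.det_updateRow_smul, smul_eq_mul]

theorem det5_gp (x y z a b c d : Fin 5 → ℝ) :
    det5 x y z a b * det5 x y z c d - det5 x y z a c * det5 x y z b d
      + det5 x y z a d * det5 x y z b c = 0 := by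
  obtain ⟨L, hL⟩ := exists_lin x y z a
  have h := six_lin L x y z b c d
  have hx : det5 x y z a x = 0 :=
    Matrix.det_zero_of_row_eq (i := 0) (j := 4) (by decide) (by ext; simp)
  have hy : det5 x y z a y = 0 :=
    Matrix.det_zero_of_row_eq (i := 1) (j := 4) (by decide) (by ext; simp)
  have hz : det5 x y z a z = 0 :=
    Matrix.det_zero_of_row_eq (i := 2) (j := 4) (by decide) (by ext; simp)
  simp only [hL, hx, hy, hz] at h
  linarith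

/-- A simplex all of whose faces are exposed gives brackets of constant nonzero sign. -/
theorem facet_sign {W : Type*} [DecidableEq W] (Y : W → Fin 5 → ℝ) (hY : ∀ v, Y v 0 = 1)
    (w : Fin 4 → W) (hw : Function.Injective w)
    (H : ∀ S : Finset (Fin 4), S.Nonempty → ∃ L : (Fin 5 → ℝ) →ₗ[ℝ] ℝ,
      ∀ v, (v ∈ S.image w → L (Y v) = 0) ∧ (v ∉ S.image w → 0 < L (Y v)))
    (x y : W) (hx : ∀ i, x ≠ w i) (hy : ∀ i, y ≠ w i) :
    0 < det5 (Y (w 0)) (Y (w 1)) (Y (w 2)) (Y (w 3)) (Y x) *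
      det5 (Y (w 0)) (Y (w 1)) (Y (w 2)) (Y (w 3)) (Y y) := by
  obtain ⟨L, hL⟩ := H Finset.univ Finset.univ_nonempty
  have hw0 : ∀ i, L (Y (w i)) = 0 := fun i => (hL _).1 (Finset.mem_image_of_mem _ (Finset.mem_univ _))
  have hpos : ∀ v, (∀ i, v ≠ w i) → 0 < L (Y v) := fun v hv => (hL v).2 (by
    simp only [Finset.mem_image, Finset.mem_univ, true_and, not_exists]
    exact fun i h => hv i h.symm)
  have hne : det5 (Y (w 0)) (Y (w 1)) (Y (w 2)) (Y (w 3)) (Y x) ≠ 0 := by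
    intro h0
    obtain ⟨c, hc0, hc⟩ := Matrix.exists_vecMul_eq_zero_iff.2 h0
    have hsum : c 0 • Y (w 0) + c 1 • Y (w 1) + c 2 • Y (w 2) + c 3 • Y (w 3) + c 4 • Y x = 0 := by
      ext j
      have := congrFun hc j
      simpa [Matrix.vecMul, dotProduct, Fin.sum_univ_five] using this
    have h4 : c 4 = 0 := by
      have := congrArg L hsum
      simp only [map_add, map_smul, hw0, smul_eq_mul, mul_zero, zero_add, map_zero] at this
      exact (mul_eq_zero.1 this).resolve_right (hpos x hx).ne'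
    have hs : ∑ i : Fin 4, c i.castSucc • Y (w i) = 0 := by
      rw [Fin.sum_univ_four]
      simpa [h4] using hsum
    have hs0 : ∑ i : Fin 4, c i.castSucc = 0 := by
      have := congrFun hs 0
      simpa [Finset.sum_apply, hY] using this
    have hall : ∀ i : Fin 4, c i.castSucc = 0 := by
      by_cases hS : (Finset.univ.filter fun i : Fin 4 => 0 < c i.castSucc).Nonempty
      · exfalso
        obtain ⟨L1, hL1⟩ := H _ hS
        have h1 := congrArg L1 hs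
        simp only [map_sum, map_smul, smul_eq_mul, map_zero] at h1
        have hmem : ∀ i, w i ∈ (Finset.univ.filter fun i : Fin 4 => 0 < c i.castSucc).image w ↔
            0 < c i.castSucc := by
          intro i
          rw [hw.mem_finset_image]; simp
        have hle : ∀ i ∈ (Finset.univ : Finset (Fin 4)), c i.castSucc * L1 (Y (w i)) ≤ 0 := by
          intro i _
          by_cases hi : 0 < c i.castSucc
          · rw [(hL1 _).1 ((hmem i).2 hi)]; simp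
          · exact mul_nonpos_of_nonpos_of_nonneg (not_lt.1 hi)
              ((hL1 _).2 (fun h => hi ((hmem i).1 h))).le
        have hz := (Finset.sum_eq_zero_iff_of_nonpos hle).1 h1
        have hge : ∀ i ∈ (Finset.univ : Finset (Fin 4)), 0 ≤ c i.castSucc := by
          intro i hi
          by_contra hneg
          have hneg' : c i.castSucc < 0 := not_le.1 hneg
          have := (hL1 _).2 (fun h => hneg'.not_gt ((hmem i).1 h))
          exact (mul_neg_of_neg_of_pos hneg' this).ne (hz i hi)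
        obtain ⟨i, hi⟩ := hS
        have := (Finset.sum_eq_zero_iff_of_nonneg hge).1 hs0 i (Finset.mem_univ _)
        simp only [Finset.mem_filter] at hi
        exact hi.2.ne' this
      · have hle : ∀ i ∈ (Finset.univ : Finset (Fin 4)), c i.castSucc ≤ 0 := by
          intro i hi
          by_contra h
          exact hS ⟨i, by simpa using h⟩
        exact fun i => (Finset.sum_eq_zero_iff_of_nonpos hle).1 hs0 i (Finset.mem_univ _)
    apply hc0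
    ext i
    refine Fin.lastCases ?_ (fun i => hall i) i
    exact h4
  have h6 := six_lin L (Y (w 0)) (Y (w 1)) (Y (w 2)) (Y (w 3)) (Y x) (Y y)
  simp only [hw0, zero_mul, sub_zero, add_zero, zero_add] at h6
  have hx' := hpos x hx
  have hy' := hpos y hy
  have : det5 (Y (w 0)) (Y (w 1)) (Y (w 2)) (Y (w 3)) (Y y) =
      L (Y y) / L (Y x) * det5 (Y (w 0)) (Y (w 1)) (Y (w 2)) (Y (w 3)) (Y x) := by
    field_simp; linarith
  rw [this]
  have := mul_self_pos.2 hne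
  have h2 := div_pos hy' hx'
  nlinarith [mul_pos h2 this]

open Vtx in
def vtx : Nat → Vtx
  | 0 => a | 1 => b | 2 => c | 3 => d | 4 => m | 5 => n | 6 => o | 7 => p | 8 => q | 9 => r
  | 10 => s | _ => t

theorem vtx_inj : ∀ i < 12, ∀ j < 12, vtx i = vtx j → i = j := by decide

theorem facetList_ok : ∀ f ∈ facetList, f.1 < 12 ∧ f.2.1 < 12 ∧ f.2.2.1 < 12 ∧ f.2.2.2 < 12 ∧
    Function.Injective ![vtx f.1, vtx f.2.1, vtx f.2.2.1, vtx f.2.2.2] ∧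
    Finset.univ.image ![vtx f.1, vtx f.2.1, vtx f.2.2.1, vtx f.2.2.2] ∈ commonTetrahedra := by
  decide +kernel

theorem main {V : Type*} (T : AbstractSimplicialComplex V) (ι : Vtx ↪ V)
    (hK : ∀ τ ∈ commonTetrahedra, τ.map ι ∈ T.faces) : ¬ IsBoundaryComplexOfFourPolytope T := by
  rintro ⟨X, P, φ, -, -, hφ, hF⟩
  let Y : Vtx → Fin 5 → ℝ := fun v => Fin.cons 1 (fun j => φ (ι v) j)
  have key : ∀ S : Finset Vtx, S.map ι ∈ T.faces → ∃ L : (Fin 5 → ℝ) →ₗ[ℝ] ℝ,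
      ∀ v, (v ∈ S → L (Y v) = 0) ∧ (v ∉ S → 0 < L (Y v)) := by
    intro S hS
    obtain ⟨F, hFne, -, hFe, hFS⟩ := (hF _).1 hS
    obtain ⟨l, hl⟩ := hFe hFne
    obtain ⟨x0, hx0⟩ := hFne
    have hx0' := hx0
    rw [hl] at hx0'
    let L : (Fin 5 → ℝ) →ₗ[ℝ] ℝ := l x0 • LinearMap.proj 0 -
      (l : EuclideanSpace ℝ (Fin 4) →ₗ[ℝ] ℝ) ∘ₗ (WithLp.linearEquiv 2 ℝ (Fin 4 → ℝ)).symm.toLinearMap ∘ₗ
        LinearMap.funLeft ℝ ℝ Fin.succ
    have hL : ∀ v, L (Y v) = l x0 - l (φ (ι v)) := by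
      intro v
      have : (WithLp.toLp 2 (LinearMap.funLeft ℝ ℝ Fin.succ (Y v)) : EuclideanSpace ℝ (Fin 4))
          = φ (ι v) := by
        ext j; simp [Y, LinearMap.funLeft]
      simp [L, this, Y]
    have hext : ∀ v, φ (ι v) ∈ Set.extremePoints ℝ P := fun v => hφ.mapsTo (Set.mem_univ _)
    refine ⟨L, fun v => ⟨fun hv => ?_, fun hv => ?_⟩⟩
    · have : φ (ι v) ∈ F ∩ Set.extremePoints ℝ P := by
        rw [hFS]; exact ⟨ι v, by simpa using hv, rfl⟩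
      have h1 := this.1
      rw [hl] at h1
      rw [hL]
      linarith [h1.2 x0 hx0'.1, hx0'.2 _ h1.1]
    · rw [hL]
      have h1 := hx0'.2 _ (hext v).1
      rcases h1.lt_or_eq with h | h
      · linarith
      · exfalso
        have h2 : φ (ι v) ∈ F := by
          rw [hl]; exact ⟨(hext v).1, fun y hy => by rw [h]; exact hx0'.2 y hy⟩
        have h3 : φ (ι v) ∈ φ '' ((S.map ι : Finset V) : Set V) := by
          rw [← hFS]; exact ⟨h2, hext v⟩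
        obtain ⟨u, hu, huv⟩ := h3
        have := hφ.injOn (Set.mem_univ _) (Set.mem_univ _) huv
        subst this
        exact hv (by simpa using hu)
  apply no_bracket_facetList
    (fun i j k l m => det5 (Y (vtx i)) (Y (vtx j)) (Y (vtx k)) (Y (vtx l)) (Y (vtx m)))
  refine ⟨fun _ _ _ _ _ => det5_sw1 .., fun _ _ _ _ _ => det5_sw2 .., fun _ _ _ _ _ => det5_sw3 ..,
    fun _ _ _ _ _ => det5_sw4 .., fun _ _ _ _ _ _ _ => det5_gp .., ?_⟩
  intro i j k l hf x y hx hy hx' hy'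
  obtain ⟨hi, hj, hk, hl, hinj, hmem⟩ := facetList_ok _ hf
  have hne : ∀ z < 12, (z ≠ i ∧ z ≠ j ∧ z ≠ k ∧ z ≠ l) →
      ∀ r, vtx z ≠ ![vtx i, vtx j, vtx k, vtx l] r := by
    intro z hz hz' r
    fin_cases r
    · exact fun h => hz'.1 (vtx_inj _ hz _ hi h)
    · exact fun h => hz'.2.1 (vtx_inj _ hz _ hj h)
    · exact fun h => hz'.2.2.1 (vtx_inj _ hz _ hk h)
    · exact fun h => hz'.2.2.2 (vtx_inj _ hz _ hl h)
  refine facet_sign Y (fun v => by simp [Y]) ![vtx i, vtx j, vtx k, vtx l] hinj ?_ (vtx x) (vtx y)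
    (hne x hx hx') (hne y hy hy')
  intro S hS
  apply key
  refine (T.isRelLowerSet_faces (hK _ hmem)).2 ?_ ?_
  · exact Finset.map_subset_map.2 (Finset.image_subset_image (Finset.subset_univ _))
  · simpa using hS

end Pool.Agent.MP_952ea4_co

end
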